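import Pool.Agent.Helper49.SEY.ScDefs
import Pool.Agent.Helper71.SEYApi2

/-!
Block SC, part 1: basic facts on `SC` matroids.
-/

namespace SEY

open Finset

variable {E : Type} [Fintype E] [DecidableEq E]

namespace BM

variable {M : BM E}

omit [DecidableEq E] in
lemma Ser.symm {a b : E} (h : M.Ser a b) : M.Ser b a := fun z hz => (h z hz).symm

omit [DecidableEq E] in
lemma Ser.trans {a b c : E} (h : M.Ser a b) (h' : M.Ser b c) : M.Ser a c :=
  fun z hz => (h z hz).trans (h' z hz)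

omit [DecidableEq E] in
lemma Ser.refl (M : BM E) (a : E) : M.Ser a a := fun _ _ => rfl

/-- `lam X` plus the nullity of `X` is the dual rank of `X`. -/
lemma sc_lam_add_dZ_eq (M : BM E) (X : Finset E) : M.lam X + M.dZ X = M.dual.r X := by
  have := M.dual.lam_add_dR_eq_r X
  rwa [lam_dual, dual_dR] at this

omit [Fintype E] [DecidableEq E] in
lemma sc_two_le_aux : ∀ s t a1 b1 a2 b2 a3 b3 : ZMod 2, a1 ≠ 0 → b2 ≠ 0 → a3 ≠ b3 →
    s * a1 + t * b1 = 0 → s * a2 + t * b2 = 0 → s * a3 + t * b3 = 0 → s = 0 ∧ t = 0 := by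
  decide

omit [Fintype E] [DecidableEq E] in
lemma sc_fin4_aux : ∀ i j : Fin 4, ∃ k l : Fin 4, k ≠ l ∧ k ≠ i ∧ k ≠ j ∧ l ≠ i ∧ l ≠ j := by
  decide

lemma sc_two_le_r (M : BM E) {X : Finset E} {f g : E → ZMod 2} (hf : f ∈ M.R) (hg : g ∈ M.R)
    (h1 : ∃ e ∈ X, f e ≠ 0) (h2 : ∃ e ∈ X, g e ≠ 0) (h3 : ∃ e ∈ X, f e ≠ g e) : 2 ≤ M.r X := by
  have hr := M.r_add_dR Xᶜ
  unfold r
  have hli : LinearIndependent (ZMod 2) ![(⟨mask X f, f, hf, rfl⟩ : M.R.map (mask X)),
      (⟨mask X g, g, hg, rfl⟩ : M.R.map (mask X))] := by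
    rw [LinearIndependent.pair_iff]
    intro s t hst
    have hst' : ∀ e ∈ X, s * f e + t * g e = 0 := by
      intro e he
      have := congrFun (congrArg Subtype.val hst) e
      simpa [he] using this
    obtain ⟨e1, he1, hf1⟩ := h1
    obtain ⟨e2, he2, hg2⟩ := h2
    obtain ⟨e3, he3, h3⟩ := h3
    have k1 := hst' e1 he1
    have k2 := hst' e2 he2
    have k3 := hst' e3 he3
    exact sc_two_le_aux s t _ _ _ _ _ _ hf1 hg2 h3 k1 k2 k3
  have := hli.fintype_card_le_finrank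
  simpa using this

/-- two elements which are not in series and not coloops have dual rank 2 -/
lemma sc_two_le_dual_r (M : BM E) {X : Finset E} {x y : E} (hx : x ∈ X) (hy : y ∈ X)
    (hs : ¬ M.Ser x y) (hcx : ∃ z ∈ M.Z, z x = 1) (hcy : ∃ z ∈ M.Z, z y = 1) :
    2 ≤ M.dual.r X := by
  unfold Ser at hs
  push Not at hs
  obtain ⟨z, hz, hxy⟩ := hs
  have key : ∀ x y : E, x ∈ X → y ∈ X → z x = 1 → z y = 0 → (∃ z ∈ M.Z, z y = 1) →
      2 ≤ M.dual.r X := by
    intro x y hx hy h1 h0 ⟨w, hw, hw1⟩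
    exact M.dual.sc_two_le_r (f := z) (g := w) hz hw ⟨x, hx, by rw [h1]; decide⟩
      ⟨y, hy, by rw [hw1]; decide⟩ ⟨y, hy, by rw [h0, hw1]; decide⟩
  rcases zcases (z x) with h1 | h1 <;> rcases zcases (z y) with h2 | h2
  · exact absurd (h1.trans h2.symm) hxy
  · exact key y x hy hx h2 h1 hcx
  · exact key x y hx hy h1 h2 hcy
  · exact absurd (h1.trans h2.symm) hxy

/-- (K): a set without cycles and with connectivity at most 1 lies in one series class. -/
lemma sc_ser_of_lam_le (M : BM E) {X : Finset E} (hc : ∀ x ∈ X, ∃ z ∈ M.Z, z x = 1)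
    (h0 : ∀ z ∈ M.Z, (∀ e, e ∉ X → z e = 0) → z = 0) (h1 : M.lam X ≤ 1) :
    ∀ x ∈ X, ∀ y ∈ X, M.Ser x y := by
  intro x hx y hy
  by_contra hs
  have h2 := M.sc_two_le_dual_r hx hy hs (hc x hx) (hc y hy)
  have h3 := M.sc_lam_add_dZ_eq X
  have h4 := M.dZ_eq_zero_iff.2 h0
  omega

/-- if the restrictions to `A` of all cycles are cycles then `lam A = 0` -/
lemma sc_lam_eq_zero_of (M : BM E) {A : Finset E}
    (h : ∀ w ∈ M.Z, ∃ u ∈ M.Z, (∀ e, e ∉ A → u e = 0) ∧ ∀ e ∈ A, w e = u e) : M.lam A = 0 := by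
  have h1 := M.lam_add_dZ A
  have h2 : M.Z ≤ M.ZIn A ⊔ M.ZIn (M.S \ A) := by
    intro w hw
    obtain ⟨u, hu, hu0, hu1⟩ := h w hw
    have h3 : w = u + (w + u) := by
      ext e
      simp only [Pi.add_apply]
      rw [← add_assoc, add_comm (u e) (w e), add_assoc, z_add_self, add_zero]
    rw [h3]
    refine Submodule.add_mem_sup ⟨hu, hu0⟩ ⟨M.Z.add_mem hw hu, fun e he => ?_⟩
    rw [Finset.mem_sdiff, not_and, not_not] at he
    by_cases hS : e ∈ M.S
    · rw [Pi.add_apply, hu1 e (he hS), z_add_self]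
    · rw [Pi.add_apply, hw.1 e hS, hu.1 e hS, add_zero]
  have h3 : M.nul ≤ M.dZ A + M.dZ (M.S \ A) := by
    unfold nul
    exact (Submodule.finrank_mono h2).trans (Submodule.finrank_add_le_finrank_add_finrank _ _)
  omega

/-- if all cycles are constant on `A` then `lam A ≤ 1` -/
lemma sc_lam_le_one_of (M : BM E) {A : Finset E} (hs : ∀ a ∈ A, ∀ b ∈ A, M.Ser a b) :
    M.lam A ≤ 1 := by
  have h1 := M.sc_lam_add_dZ_eq A
  suffices h : M.dual.r A ≤ 1 by omega
  unfold r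
  have h : M.dual.R.map (mask A) ≤ Submodule.span (ZMod 2) {ind A} := by
    rintro _ ⟨v, hv, rfl⟩
    rw [Submodule.mem_span_singleton]
    by_cases hA : ∃ a ∈ A, v a = 1
    · obtain ⟨a, ha, hva⟩ := hA
      refine ⟨1, ?_⟩
      rw [one_smul]
      ext e
      by_cases he : e ∈ A
      · rw [ind_of_mem he, mask_apply, if_pos he, hs e he a ha v hv, hva]
      · rw [ind_of_notMem he, mask_apply, if_neg he]
    · refine ⟨0, ?_⟩
      rw [zero_smul]
      symm
      rw [mask_eq_zero_iff]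
      intro e he
      by_contra h3
      exact hA ⟨e, he, z_ne_zero.1 h3⟩
  have h5 := Submodule.finrank_mono h
  have h6 := finrank_span_le_card (R := ZMod 2) ({ind A} : Set (E → ZMod 2))
  simp at h6
  omega

namespace SC

/-- two elements outside of two classes -/
lemma exists_two (h : M.SC) (a b : E) : ∃ x ∈ M.S, ∃ y ∈ M.S, ¬ M.Ser x y ∧ ¬ M.Ser x a ∧
    ¬ M.Ser x b ∧ ¬ M.Ser y a ∧ ¬ M.Ser y b := by
  obtain ⟨⟨s, hs, hne⟩, -⟩ := h
  have h1 : ∃ i, ∀ k, k ≠ i → ¬ M.Ser (s k) a := by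
    by_cases hi : ∃ i, M.Ser (s i) a
    · obtain ⟨i, hi⟩ := hi
      exact ⟨i, fun k hk hka => hne k i hk (hka.trans hi.symm)⟩
    · push Not at hi
      exact ⟨0, fun k _ => hi k⟩
  have h2 : ∃ j, ∀ k, k ≠ j → ¬ M.Ser (s k) b := by
    by_cases hi : ∃ i, M.Ser (s i) b
    · obtain ⟨i, hi⟩ := hi
      exact ⟨i, fun k hk hka => hne k i hk (hka.trans hi.symm)⟩
    · push Not at hi
      exact ⟨0, fun k _ => hi k⟩
  obtain ⟨i, hi⟩ := h1
  obtain ⟨j, hj⟩ := h2
  obtain ⟨k, l, hkl, k1, k2, l1, l2⟩ := sc_fin4_aux i j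
  exact ⟨s k, hs k, s l, hs l, hne k l hkl, hi k k1, hj k k2, hi l l1, hj l l2⟩

lemma exists_not_ser (h : M.SC) (a : E) : ∃ x ∈ M.S, ¬ M.Ser x a := by
  obtain ⟨x, hx, -, -, -, h1, -⟩ := h.exists_two a a
  exact ⟨x, hx, h1⟩

/-- a set covered by two classes, with `lam ≤ 1`, lies in one class -/
lemma of_cover (h : M.SC) {A : Finset E} (hA : A ⊆ M.S) (h1 : M.lam A ≤ 1) {a b : E}
    (hc : ∀ e ∈ A, M.Ser e a ∨ M.Ser e b) : ∀ e ∈ A, ∀ f ∈ A, M.Ser e f := by
  rcases h.2 A hA h1 with h2 | h2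
  · exact h2
  · exfalso
    obtain ⟨x, hx, y, hy, hxy, xa, xb, ya, yb⟩ := h.exists_two a b
    refine hxy (h2 x (Finset.mem_sdiff.2 ⟨hx, fun hxA => ?_⟩) y
      (Finset.mem_sdiff.2 ⟨hy, fun hyA => ?_⟩))
    · rcases hc x hxA with h3 | h3
      · exact xa h3
      · exact xb h3
    · rcases hc y hyA with h3 | h3
      · exact ya h3
      · exact yb h3

lemma lam_zero (h : M.SC) {A : Finset E} (hA : A ⊆ M.S) (h0 : M.lam A = 0) :
    A = ∅ ∨ A = M.S := by
  have key : ∀ A ⊆ M.S, M.lam A = 0 → (∀ e ∈ A, ∀ f ∈ A, M.Ser e f) → A = ∅ := by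
    intro A hA h0 hs
    by_contra hne
    obtain ⟨a, ha⟩ := Finset.nonempty_iff_ne_empty.2 hne
    obtain ⟨x, hx, hxa⟩ := h.exists_not_ser a
    have h1 := M.lam_insert_le A x
    have h2 := h.of_cover (A := insert x A) (Finset.insert_subset hx hA) (by omega)
      (a := a) (b := x) (fun e he => by
        rcases Finset.mem_insert.1 he with rfl | he
        · exact Or.inr (Ser.refl M _)
        · exact Or.inl (hs e he a ha))
    exact hxa (h2 x (Finset.mem_insert_self _ _) a (Finset.mem_insert_of_mem ha))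
  rcases h.2 A hA (by omega) with h1 | h1
  · exact Or.inl (key A hA h0 h1)
  · right
    have h2 := key (M.S \ A) Finset.sdiff_subset (by rw [M.lam_compl]; exact h0) h1
    exact Finset.Subset.antisymm hA (Finset.sdiff_eq_empty_iff_subset.1 h2)

lemma not_coloop (h : M.SC) {e : E} (he : e ∈ M.S) : ∃ z ∈ M.Z, z e = 1 := by
  by_contra hcon
  push Not at hcon
  have h0 : M.lam {e} = 0 := by
    refine M.sc_lam_eq_zero_of (fun w hw => ⟨0, M.Z.zero_mem, fun _ _ => rfl, fun x hx => ?_⟩)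
    rw [Finset.mem_singleton.1 hx]
    exact z_ne_one.1 (hcon w hw)
  obtain ⟨x, hx, hxe⟩ := h.exists_not_ser e
  rcases h.lam_zero (by simpa using he) h0 with h1 | h1
  · simp at h1
  · rw [← h1, Finset.mem_singleton] at hx
    exact hxe (hx ▸ Ser.refl M _)

lemma cycle (h : M.SC) {z : E → ZMod 2} (hz : z ∈ M.Z) (h0 : z ≠ 0) :
    ∃ a b, z a = 1 ∧ z b = 1 ∧ ¬ M.Ser a b := by
  by_contra hcon
  push Not at hcon
  have h1 : M.lam (spt z) = 0 := by
    refine M.sc_lam_eq_zero_of (fun w hw => ?_)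
    by_cases hA : ∃ a ∈ spt z, w a = 1
    · obtain ⟨a, ha, hwa⟩ := hA
      refine ⟨z, hz, fun e he => notMem_spt.1 he, fun e he => ?_⟩
      rw [mem_spt'.1 he, ← hwa]
      exact hcon e a (mem_spt'.1 he) (mem_spt'.1 ha) w hw
    · refine ⟨0, M.Z.zero_mem, fun _ _ => rfl, fun e he => ?_⟩
      by_contra h3
      exact hA ⟨e, he, z_ne_zero.1 h3⟩
  rcases h.lam_zero (M.spt_subset_of_mem_Z hz) h1 with h2 | h2
  · exact h0 (spt_eq_empty.1 h2)
  · obtain ⟨x, hx, y, hy, hxy, -⟩ := h.exists_two (M := M) (h.1.choose 0) (h.1.choose 0)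
    rw [← h2] at hx hy
    exact hxy (hcon x y (mem_spt'.1 hx) (mem_spt'.1 hy))

lemma no_cycle (h : M.SC) {A : Finset E} (hs : ∀ a ∈ A, ∀ b ∈ A, M.Ser a b)
    {z : E → ZMod 2} (hz : z ∈ M.Z) (h0 : ∀ e, e ∉ A → z e = 0) : z = 0 := by
  by_contra hne
  obtain ⟨a, b, ha, hb, hab⟩ := h.cycle hz hne
  refine hab (hs a ?_ b ?_)
  · by_contra h1
    rw [h0 a h1] at ha; exact absurd ha (by decide)
  · by_contra h1
    rw [h0 b h1] at hb; exact absurd hb (by decide)

lemma lam_class (h : M.SC) {A : Finset E} (hA : A ⊆ M.S) (h0 : A.Nonempty)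
    (hs : ∀ a ∈ A, ∀ b ∈ A, M.Ser a b) : M.lam A = 1 := by
  have h1 := M.sc_lam_le_one_of hs
  have h2 : M.lam A ≠ 0 := by
    intro h3
    rcases h.lam_zero hA h3 with h4 | h4
    · exact h0.ne_empty h4
    · obtain ⟨x, hx, y, hy, hxy, -⟩ := h.exists_two (M := M) (h.1.choose 0) (h.1.choose 0)
      rw [← h4] at hx hy
      exact hxy (hs x hx y hy)
  omega

end SC

end BM

theorem SC_not_coloop (M : BM E) (h : M.SC) (e : E) (he : e ∈ M.S) : ∃ z ∈ M.Z, z e = 1 :=
  h.not_coloop he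

theorem SC_cycle (M : BM E) (h : M.SC) (z : E → ZMod 2) (hz : z ∈ M.Z) (h0 : z ≠ 0) :
    ∃ a b, z a = 1 ∧ z b = 1 ∧ ¬ M.Ser a b :=
  h.cycle hz h0

theorem SC_lam_zero (M : BM E) (h : M.SC) (A : Finset E) (hA : A ⊆ M.S) (h0 : M.lam A = 0) :
    A = ∅ ∨ A = M.S :=
  h.lam_zero hA h0

theorem SC_lam_class (M : BM E) (h : M.SC) (A : Finset E) (hA : A ⊆ M.S) (h0 : A.Nonempty)
    (hs : ∀ a ∈ A, ∀ b ∈ A, M.Ser a b) : M.lam A = 1 :=
  h.lam_class hA h0 hs

theorem TC_iff_SC (M : BM E) :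
    M.TC ↔ M.SC ∧ ∀ a ∈ M.S, ∀ b ∈ M.S, M.Ser a b → a = b := by
  constructor
  · intro h
    refine ⟨⟨?_, fun A hA h1 => ?_⟩, fun a ha b hb hs => ?_⟩
    · obtain ⟨T, hT, hcard⟩ := Finset.exists_subset_card_eq h.card
      let e := T.equivFin.trans (finCongr hcard)
      refine ⟨fun i => (e.symm i : E), fun i => hT (e.symm i).2, fun i j hij hs => ?_⟩
      refine h.not_ser (hT (e.symm i).2) (hT (e.symm j).2) (fun h1 => hij ?_) hs
      exact e.symm.injective (Subtype.ext h1)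
    · rcases h.of_lam_one hA h1 with h2 | h2
      · left
        intro e he f hf
        rw [Finset.card_le_one.1 h2 e he f hf]
        exact BM.Ser.refl M _
      · right
        intro e he f hf
        rw [Finset.card_le_one.1 h2 e he f hf]
        exact BM.Ser.refl M _
    · by_contra hne
      exact h.not_ser ha hb hne hs
  · rintro ⟨h, hs⟩
    refine ⟨?_, fun A hA => ⟨fun h0 => h.lam_zero hA h0, fun h1 => ?_⟩⟩
    · obtain ⟨⟨s, hsS, hne⟩, -⟩ := h
      have hinj : Function.Injective s := by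
        intro i j hij
        by_contra h1
        exact hne i j h1 (hij ▸ BM.Ser.refl M _)
      calc 4 = (Finset.univ.image s).card := by
            rw [Finset.card_image_of_injective _ hinj]; simp
        _ ≤ M.S.card := Finset.card_le_card (by
            intro x hx
            obtain ⟨i, -, rfl⟩ := Finset.mem_image.1 hx
            exact hsS i)
    · rcases h.2 A hA h1 with h2 | h2
      · left
        exact Finset.card_le_one.2 (fun a ha b hb => hs a (hA ha) b (hA hb) (h2 a ha b hb))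
      · right
        exact Finset.card_le_one.2 (fun a ha b hb =>
          hs a (Finset.mem_sdiff.1 ha).1 b (Finset.mem_sdiff.1 hb).1 (h2 a ha b hb))

end SEY
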