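import Pool.Agent.Helper49.SEY.Sc1

/-!
Block SC, part 2: `SC_con`, `SC_of_con`, `SC_ext`.
-/

namespace SEY

open Finset

variable {E : Type} [Fintype E] [DecidableEq E]

namespace BM

/-- `lam X ≤ 1` means: one of `X`, `S - X` is inside a class; reduction to one side. -/
lemma sc_of_half (M : BM E) (s : Fin 4 → E) (hs : ∀ i, s i ∈ M.S)
    (hne : ∀ i j, i ≠ j → ¬ M.Ser (s i) (s j)) (P : Finset E → Prop)
    (hP : ∀ X ⊆ M.S, M.lam X ≤ 1 → P X ∨ P (M.S \ X))
    (h : ∀ X ⊆ M.S, M.lam X ≤ 1 → P X →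
      (∀ e ∈ X, ∀ f ∈ X, M.Ser e f) ∨ (∀ e ∈ M.S \ X, ∀ f ∈ M.S \ X, M.Ser e f)) : M.SC := by
  refine ⟨⟨s, hs, hne⟩, fun X hX h1 => ?_⟩
  rcases hP X hX h1 with h2 | h2
  · exact h X hX h1 h2
  · have h3 := h (M.S \ X) Finset.sdiff_subset (by rw [M.lam_compl]; exact h1) h2
    have h4 : M.S \ (M.S \ X) = X := by
      rw [sdiff_sdiff_right_self]; exact Finset.inter_eq_right.2 hX
    rw [h4] at h3
    exact h3.symm

lemma sc_ser_con_iff (M : BM E) {a x y : E} (hx : x ∈ M.S) (hxa : x ≠ a) (hy : y ∈ M.S)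
    (hya : y ≠ a) : (M.con {a}).Ser x y ↔ M.Ser x y := by
  constructor
  · intro h z hz
    have h1 := h (mask (M.S \ {a}) z) (by rw [mem_Z_con]; exact ⟨z, hz, rfl⟩)
    rwa [mask_apply, mask_apply, if_pos (by simp [hx, hxa]), if_pos (by simp [hy, hya])] at h1
  · intro h z hz
    rw [mem_Z_con] at hz
    obtain ⟨w, hw, rfl⟩ := hz
    rw [mask_apply, mask_apply, if_pos (by simp [hx, hxa]), if_pos (by simp [hy, hya])]
    exact h w hw

/-- cycles of `M con a` extend to cycles of `M`, and are determined by the series partner -/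
lemma sc_ext_cycle (M : BM E) {a b : E} (hab : a ≠ b) (hs : M.Ser a b)
    {z : E → ZMod 2} (hz : z ∈ (M.con {a}).Z) :
    ∃ w ∈ M.Z, w a = z b ∧ ∀ e, e ≠ a → w e = z e := by
  rw [mem_Z_con] at hz
  obtain ⟨w, hw, rfl⟩ := hz
  have h : ∀ e, e ≠ a → w e = mask (M.S \ {a}) w e := by
    intro e he
    rw [mask_apply]
    split_ifs with h1
    · rfl
    · refine hw.1 e (fun h2 => h1 ?_)
      simp [h2, he]
  exact ⟨w, hw, by rw [hs w hw]; exact h b hab.symm, h⟩

lemma sc_con_cycle (M : BM E) {a : E} {w : E → ZMod 2} (hw : w ∈ M.Z) :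
    ∃ z ∈ (M.con {a}).Z, z a = 0 ∧ ∀ e, e ≠ a → w e = z e := by
  refine ⟨mask (M.S \ {a}) w, (M.mem_Z_con).2 ⟨w, hw, rfl⟩, ?_, fun e he => ?_⟩
  · rw [mask_apply, if_neg (by simp)]
  · rw [mask_apply]
    split_ifs with h1
    · rfl
    · refine hw.1 e (fun h2 => h1 ?_)
      simp [h2, he]

end BM

open BM in
theorem SC_con (M : BM E) (h : M.SC) (a b : E) (ha : a ∈ M.S) (hb : b ∈ M.S) (hab : a ≠ b)
    (hs : M.Ser a b) : (M.con {a}).SC ∧
      ∀ x ∈ M.S, x ≠ a → ∀ y ∈ M.S, y ≠ a → ((M.con {a}).Ser x y ↔ M.Ser x y) := by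
  refine ⟨?_, fun x hx hxa y hy hya => M.sc_ser_con_iff hx hxa hy hya⟩
  obtain ⟨s, hsS, hne⟩ := h.1
  have hrep : ∀ i, ∃ x ∈ M.S, x ≠ a ∧ M.Ser x (s i) := by
    intro i
    by_cases hi : s i = a
    · exact ⟨b, hb, hab.symm, by rw [hi]; exact hs.symm⟩
    · exact ⟨s i, hsS i, hi, Ser.refl M _⟩
  choose t ht hta hts using hrep
  have hmem : ∀ x, x ∈ (M.con {a}).S ↔ x ∈ M.S ∧ x ≠ a := by intro x; simp
  refine (M.con {a}).sc_of_half t (fun i => (hmem _).2 ⟨ht i, hta i⟩) (fun i j hij hser => ?_)
    (fun X => b ∈ X) (fun X hX _ => ?_) (fun X hX h1 hbX => ?_)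
  · rw [M.sc_ser_con_iff (ht i) (hta i) (ht j) (hta j)] at hser
    exact hne i j hij (((hts i).symm.trans hser).trans (hts j))
  · by_cases hbX : b ∈ X
    · exact Or.inl hbX
    · exact Or.inr (Finset.mem_sdiff.2 ⟨(hmem b).2 ⟨hb, hab.symm⟩, hbX⟩)
  · -- `b ∈ X`
    have haX : a ∉ X := fun h2 => ((hmem a).1 (hX h2)).2 rfl
    have hXS : insert a X ⊆ M.S := by
      intro x hx
      rcases Finset.mem_insert.1 hx with rfl | hx
      · exact ha
      · exact ((hmem x).1 (hX hx)).1
    have hlam : M.lam (insert a X) ≤ 1 := by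
      have g1 := (M.con {a}).lam_add_dZ X
      have g2 := M.dZ_con_add {a} X
      have g3 := M.dZ_con_add {a} ((M.con {a}).S \ X)
      have g4 := M.dZ_con_add {a} (M.con {a}).S
      rw [(M.con {a}).dZ_S] at g4
      have g5 : M.dZ ((M.con {a}).S ∪ {a}) = M.nul := by
        refine M.dZ_of_S_subset (fun x hx => ?_)
        by_cases hxa : x = a
        · simp [hxa]
        · simp [hxa, hx]
      have g6 := M.lam_add_dZ (insert a X)
      have g7 : X ∪ {a} = insert a X := by ext x; simp
      have g8 : M.dZ ((M.con {a}).S \ X ∪ {a}) = M.dZ (M.S \ insert a X) := by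
        have : M.ZIn ((M.con {a}).S \ X ∪ {a}) = M.ZIn (M.S \ insert a X) := by
          ext z
          rw [mem_ZIn, mem_ZIn]
          refine and_congr_right (fun hz => ⟨fun h2 e he => ?_, fun h2 e he => ?_⟩)
          · have hzb : z b = 0 := h2 b (by simp [hab.symm, hbX])
            by_cases hea : e = a
            · rw [hea, hs z hz, hzb]
            · refine h2 e (fun h3 => he ?_)
              simp only [Finset.mem_union, Finset.mem_sdiff, Finset.mem_singleton, hmem,
                Finset.mem_insert] at h3 ⊢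
              tauto
          · refine h2 e (fun h3 => he ?_)
            simp only [Finset.mem_union, Finset.mem_sdiff, Finset.mem_singleton, hmem,
              Finset.mem_insert] at h3 ⊢
            tauto
        show Module.finrank (ZMod 2) _ = Module.finrank (ZMod 2) _
        rw [this]
      have g9 : M.dZ {a} = 0 := by
        rw [M.dZ_eq_zero_iff]
        intro z hz h2
        refine h.no_cycle (A := {a}) ?_ hz h2
        intro x hx y hy
        rw [Finset.mem_singleton.1 hx, Finset.mem_singleton.1 hy]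
        exact Ser.refl M _
      rw [g7] at g2
      rw [g8] at g3
      rw [g5] at g4
      omega
    rcases h.2 _ hXS hlam with h2 | h2
    · left
      intro e he f hf
      have he' := (hmem e).1 (hX he)
      have hf' := (hmem f).1 (hX hf)
      rw [M.sc_ser_con_iff he'.1 he'.2 hf'.1 hf'.2]
      exact h2 e (Finset.mem_insert_of_mem he) f (Finset.mem_insert_of_mem hf)
    · right
      intro e he f hf
      have he' := (hmem e).1 (Finset.mem_sdiff.1 he).1
      have hf' := (hmem f).1 (Finset.mem_sdiff.1 hf).1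
      rw [M.sc_ser_con_iff he'.1 he'.2 hf'.1 hf'.2]
      have he'' := (Finset.mem_sdiff.1 he).2
      have hf'' := (Finset.mem_sdiff.1 hf).2
      exact h2 e (by simp [he'.1, he'.2, he'']) f (by simp [hf'.1, hf'.2, hf''])

open BM in
theorem SC_of_con (M : BM E) (a b : E) (ha : a ∈ M.S) (hb : b ∈ M.S) (hab : a ≠ b)
    (hs : M.Ser a b) (hcl : ∃ z ∈ M.Z, z a = 1) (h : (M.con {a}).SC) : M.SC ∧
      ∀ x ∈ M.S, x ≠ a → ∀ y ∈ M.S, y ≠ a → ((M.con {a}).Ser x y ↔ M.Ser x y) := by
  refine ⟨?_, fun x hx hxa y hy hya => M.sc_ser_con_iff hx hxa hy hya⟩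
  have hmem : ∀ x, x ∈ (M.con {a}).S ↔ x ∈ M.S ∧ x ≠ a := by intro x; simp
  have hcol : ∀ x ∈ M.S, ∃ z ∈ M.Z, z x = 1 := by
    intro x hx
    by_cases hxa : x = a
    · rw [hxa]; exact hcl
    · obtain ⟨z, hz, h1⟩ := h.not_coloop ((hmem x).2 ⟨hx, hxa⟩)
      obtain ⟨w, hw, -, h2⟩ := M.sc_ext_cycle hab hs hz
      exact ⟨w, hw, by rw [h2 x hxa]; exact h1⟩
  obtain ⟨s, hsS, hne⟩ := h.1
  -- cycles of `M` inside a class of `M con a` and avoiding `a` vanish
  have hno : ∀ X : Finset E, (∀ e ∈ X, ∀ f ∈ X, (M.con {a}).Ser e f) → ∀ w ∈ M.Z,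
      (∀ e, e ∉ X → w e = 0) → w a = 0 → w = 0 := by
    intro X hX w hw h0 hwa
    obtain ⟨z, hz, hza, hze⟩ := M.sc_con_cycle (a := a) hw
    have h1 : z = 0 := by
      refine h.no_cycle hX hz (fun e he => ?_)
      by_cases hea : e = a
      · rw [hea, hza]
      · rw [← hze e hea]; exact h0 e he
    ext e
    by_cases hea : e = a
    · rw [hea, hwa]; rfl
    · rw [hze e hea, h1]
  refine M.sc_of_half s (fun i => ((hmem _).1 (hsS i)).1) (fun i j hij hser => ?_)
    (fun X => a ∈ X) (fun X hX _ => ?_) (fun X hX h1 haX => ?_)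
  · have hi := (hmem _).1 (hsS i)
    have hj := (hmem _).1 (hsS j)
    exact hne i j hij ((M.sc_ser_con_iff hi.1 hi.2 hj.1 hj.2).2 hser)
  · by_cases haX : a ∈ X
    · exact Or.inl haX
    · exact Or.inr (Finset.mem_sdiff.2 ⟨ha, haX⟩)
  · have hXa : X.erase a ⊆ (M.con {a}).S := by
      intro x hx
      exact (hmem x).2 ⟨hX (Finset.mem_erase.1 hx).2, (Finset.mem_erase.1 hx).1⟩
    have hlam : (M.con {a}).lam (X.erase a) ≤ 1 := by
      have h2 := M.lam_con_le {a} X
      have h3 : (M.con {a}).lam (X.erase a) = (M.con {a}).lam X := by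
        refine lam_congr _ ?_
        ext x
        simp only [Finset.mem_inter, hmem, Finset.mem_erase]
        tauto
      omega
    by_cases hbX : b ∈ X
    · rcases h.2 _ hXa hlam with h2 | h2
      · left
        have h3 : ∀ e ∈ X, M.Ser e b := by
          intro e he
          by_cases hea : e = a
          · rw [hea]; exact hs
          · exact (M.sc_ser_con_iff (hX he) hea hb hab.symm).1
              (h2 e (Finset.mem_erase.2 ⟨hea, he⟩) b (Finset.mem_erase.2 ⟨hab.symm, hbX⟩))
        intro e he f hf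
        exact (h3 e he).trans (h3 f hf).symm
      · right
        intro e he f hf
        have he' := Finset.mem_sdiff.1 he
        have hf' := Finset.mem_sdiff.1 hf
        have hea : e ≠ a := fun h3 => he'.2 (h3 ▸ haX)
        have hfa : f ≠ a := fun h3 => hf'.2 (h3 ▸ haX)
        refine (M.sc_ser_con_iff he'.1 hea hf'.1 hfa).1 (h2 e ?_ f ?_)
        · rw [Finset.mem_sdiff, hmem, Finset.mem_erase]; tauto
        · rw [Finset.mem_sdiff, hmem, Finset.mem_erase]; tauto
    · rcases h.2 _ hXa hlam with h2 | h2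
      · left
        refine M.sc_ser_of_lam_le (fun x hx => hcol x (hX hx)) (fun w hw h0 => ?_) h1
        have hwa : w a = 0 := by rw [hs w hw]; exact h0 b hbX
        refine hno _ h2 w hw (fun e he => ?_) hwa
        by_cases hea : e = a
        · rw [hea, hwa]
        · exact h0 e (fun h3 => he (Finset.mem_erase.2 ⟨hea, h3⟩))
      · right
        intro e he f hf
        have he' := Finset.mem_sdiff.1 he
        have hf' := Finset.mem_sdiff.1 hf
        have hea : e ≠ a := fun h3 => he'.2 (h3 ▸ haX)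
        have hfa : f ≠ a := fun h3 => hf'.2 (h3 ▸ haX)
        refine (M.sc_ser_con_iff he'.1 hea hf'.1 hfa).1 (h2 e ?_ f ?_)
        · rw [Finset.mem_sdiff, hmem, Finset.mem_erase]; tauto
        · rw [Finset.mem_sdiff, hmem, Finset.mem_erase]; tauto

open BM in
/-- (EXT): adding an ear `P` which is not spanned by one series class. -/
theorem SC_ext (M : BM E) (P : Finset E) (hP : P ⊆ M.S) (hne : P.Nonempty)
    (h : (M.del P).SC) (z0 : E → ZMod 2) (hz0 : z0 ∈ M.Z) (h01 : ∀ p ∈ P, z0 p = 1)
    (hear : ∀ z ∈ M.Z, (∀ p ∈ P, z p = 0) ∨ (∀ p ∈ P, z p = 1))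
    (hout : ∀ z ∈ M.Z, (∀ p ∈ P, z p = 1) →
      ∃ a b, a ∉ P ∧ b ∉ P ∧ z a = 1 ∧ z b = 1 ∧ ¬ (M.del P).Ser a b) :
    M.SC ∧ ∀ a ∈ M.S, ∀ b ∈ M.S, (M.Ser a b ↔ (a ∈ P ∧ b ∈ P) ∨
      (a ∉ P ∧ b ∉ P ∧ (M.del P).Ser a b ∧ z0 a = z0 b)) := by
  have hmem : ∀ x, x ∈ (M.del P).S ↔ x ∈ M.S ∧ x ∉ P := by intro x; simp
  -- Ser of M implies Ser of the deletion
  have hser : ∀ a b, M.Ser a b → (M.del P).Ser a b :=
    fun a b hab z hz => hab z ((M.mem_Z_del).1 hz).1
  have hcolN : ∀ x ∈ M.S, x ∉ P → ∃ z ∈ M.Z, z x = 1 ∧ ∀ p ∈ P, z p = 0 := by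
    intro x hx hxP
    obtain ⟨z, hz, h1⟩ := h.not_coloop ((hmem x).2 ⟨hx, hxP⟩)
    exact ⟨z, ((M.mem_Z_del).1 hz).1, h1, ((M.mem_Z_del).1 hz).2⟩
  have hcol : ∀ x ∈ M.S, ∃ z ∈ M.Z, z x = 1 := by
    intro x hx
    by_cases hxP : x ∈ P
    · exact ⟨z0, hz0, h01 x hxP⟩
    · obtain ⟨z, hz, h1, -⟩ := hcolN x hx hxP
      exact ⟨z, hz, h1⟩
  have hPs : ∀ a ∈ P, ∀ b ∈ P, M.Ser a b := by
    intro a ha b hb z hz
    rcases hear z hz with h1 | h1
    · rw [h1 a ha, h1 b hb]
    · rw [h1 a ha, h1 b hb]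
  have hPout : ∀ a ∈ P, ∀ b ∈ M.S, b ∉ P → ¬ M.Ser a b := by
    intro a ha b hb hbP hab
    obtain ⟨z, hz, h1, h2⟩ := hcolN b hb hbP
    have := hab z hz
    rw [h1, h2 a ha] at this
    exact absurd this (by decide)
  refine ⟨?_, fun a ha b hb => ?_⟩
  · obtain ⟨s, hsS, hsne⟩ := h.1
    refine M.sc_of_half s (fun i => ((hmem _).1 (hsS i)).1)
      (fun i j hij hs => hsne i j hij (hser _ _ hs))
      (fun X => ∀ e ∈ X \ P, ∀ f ∈ X \ P, (M.del P).Ser e f) (fun X hX h1 => ?_)
      (fun X hX h1 hXs => ?_)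
    · have h2 : (M.del P).lam (X \ P) ≤ 1 := by
        have h3 := M.lam_del_le P X
        have h4 : (M.del P).lam (X \ P) = (M.del P).lam X := by
          refine lam_congr _ ?_
          ext x
          simp only [Finset.mem_inter, hmem, Finset.mem_sdiff]
          tauto
        omega
      rcases h.2 (X \ P) (fun x hx => (hmem x).2
        ⟨hX (Finset.mem_sdiff.1 hx).1, (Finset.mem_sdiff.1 hx).2⟩) h2 with h3 | h3
      · exact Or.inl h3
      · right
        intro e he f hf
        refine h3 e ?_ f ?_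
        · simp only [Finset.mem_sdiff, hmem] at he ⊢; tauto
        · simp only [Finset.mem_sdiff, hmem] at hf ⊢; tauto
    · left
      by_cases hPX : P ⊆ X ∨ Disjoint P X
      · -- no cycle inside `X`
        refine M.sc_ser_of_lam_le (fun x hx => hcol x (hX hx)) (fun z hz h0 => ?_) h1
        have hz0' : ∀ p ∈ P, z p = 0 := by
          rcases hear z hz with h2 | h2
          · exact h2
          · exfalso
            obtain ⟨a, b, haP, hbP, hza, hzb, hab⟩ := hout z hz h2
            refine hab (hXs a ?_ b ?_)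
            · rw [Finset.mem_sdiff]
              refine ⟨?_, haP⟩
              by_contra h3
              rw [h0 a h3] at hza; exact absurd hza (by decide)
            · rw [Finset.mem_sdiff]
              refine ⟨?_, hbP⟩
              by_contra h3
              rw [h0 b h3] at hzb; exact absurd hzb (by decide)
        refine h.no_cycle hXs ((M.mem_Z_del).2 ⟨hz, hz0'⟩) (fun e he => ?_)
        by_cases heX : e ∈ X
        · have : e ∈ P := by
            by_contra h3
            exact he (Finset.mem_sdiff.2 ⟨heX, h3⟩)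
          exact hz0' e this
        · exact h0 e heX
      · -- `P` meets both sides
        push Not at hPX
        obtain ⟨hPX1, hPX2⟩ := hPX
        obtain ⟨p1, hp1, hp1X⟩ := Finset.not_subset.1 hPX1
        obtain ⟨p2, hp2, hp2X⟩ := Finset.not_disjoint_iff.1 hPX2
        have hz1 : ∀ z ∈ M.Z, (∀ e, e ∉ X → z e = 0) → ∀ p ∈ P, z p = 0 := by
          intro z hz h2
          rcases hear z hz with h3 | h3
          · exact h3
          · have := h3 p1 hp1
            rw [h2 p1 hp1X] at this
            exact absurd this (by decide)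
        have hz2 : ∀ z ∈ M.Z, (∀ e, e ∉ M.S \ X → z e = 0) → ∀ p ∈ P, z p = 0 := by
          intro z hz h2
          rcases hear z hz with h3 | h3
          · exact h3
          · have := h3 p2 hp2
            rw [h2 p2 (by simp [hp2X])] at this
            exact absurd this (by decide)
        have g1 := M.lam_add_dZ X
        have g2 := (M.del P).lam_add_dZ X
        have g3 := M.dZ_del P X
        have g4 := M.dZ_del P ((M.del P).S \ X)
        have g5 : M.dZ (X \ P) = M.dZ X := by
          have : M.ZIn (X \ P) = M.ZIn X := by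
            ext z
            rw [mem_ZIn, mem_ZIn]
            refine and_congr_right (fun hz => ⟨fun h2 e he => h2 e (by simp [he]),
              fun h2 e he => ?_⟩)
            by_cases heX : e ∈ X
            · exact hz1 z hz h2 e (by
                by_contra h3; exact he (Finset.mem_sdiff.2 ⟨heX, h3⟩))
            · exact h2 e heX
          show Module.finrank (ZMod 2) _ = Module.finrank (ZMod 2) _
          rw [this]
        have g6 : M.dZ (((M.del P).S \ X) \ P) = M.dZ (M.S \ X) := by
          have : M.ZIn (((M.del P).S \ X) \ P) = M.ZIn (M.S \ X) := by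
            ext z
            rw [mem_ZIn, mem_ZIn]
            refine and_congr_right (fun hz => ⟨fun h2 e he => h2 e (fun h3 => he ?_),
              fun h2 e he => ?_⟩)
            · simp only [Finset.mem_sdiff, hmem] at h3 ⊢; tauto
            · by_cases heX : e ∈ M.S \ X
              · exact hz2 z hz h2 e (by
                  by_contra h3
                  refine he ?_
                  simp only [Finset.mem_sdiff, hmem] at heX ⊢; tauto)
              · exact h2 e heX
          show Module.finrank (ZMod 2) _ = Module.finrank (ZMod 2) _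
          rw [this]
        have g7 : (M.del P).nul < M.nul := by
          have h2 : (M.del P).Z < M.Z := by
            refine lt_of_le_of_ne (fun z hz => ((M.mem_Z_del).1 hz).1) (fun h3 => ?_)
            rw [← h3] at hz0
            obtain ⟨p, hp⟩ := hne
            have h4 := ((M.mem_Z_del).1 hz0).2 p hp
            rw [h01 p hp] at h4
            exact absurd h4 (by decide)
          exact Submodule.finrank_lt_finrank_of_lt h2
        have g8 : (M.del P).lam X = 0 := by omega
        have g9 : (M.del P).lam (X \ P) = 0 := by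
          rw [← g8]
          refine lam_congr _ ?_
          ext x
          simp only [Finset.mem_inter, hmem, Finset.mem_sdiff]
          tauto
        have hsub : X \ P ⊆ (M.del P).S := fun x hx => (hmem x).2
          ⟨hX (Finset.mem_sdiff.1 hx).1, (Finset.mem_sdiff.1 hx).2⟩
        rcases h.lam_zero hsub g9 with h2 | h2
        · intro e he f hf
          rw [Finset.sdiff_eq_empty_iff_subset] at h2
          exact hPs e (h2 he) f (h2 hf)
        · exfalso
          have h3 := hXs (s 0) (by rw [h2]; exact hsS 0) (s 1) (by rw [h2]; exact hsS 1)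
          exact hsne 0 1 (by decide) h3
  · constructor
    · intro hab
      by_cases haP : a ∈ P
      · by_cases hbP : b ∈ P
        · exact Or.inl ⟨haP, hbP⟩
        · exact absurd hab (hPout a haP b hb hbP)
      · by_cases hbP : b ∈ P
        · exact absurd hab.symm (hPout b hbP a ha haP)
        · exact Or.inr ⟨haP, hbP, hser a b hab, hab z0 hz0⟩
    · rintro (⟨haP, hbP⟩ | ⟨haP, hbP, hab, h0⟩)
      · exact hPs a haP b hbP
      · intro z hz
        rcases hear z hz with h2 | h2
        · exact hab z ((M.mem_Z_del).2 ⟨hz, h2⟩)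
        · have h3 := hab (z + z0) ((M.mem_Z_del).2 ⟨M.Z.add_mem hz hz0, fun p hp => by
            rw [Pi.add_apply, h2 p hp, h01 p hp]; decide⟩)
          rw [Pi.add_apply, Pi.add_apply, h0] at h3
          exact add_right_cancel h3

end SEY
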