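import Pool.Agent.Helper49.SEY.Sc1

/-!
Block SC, part 3: `SC_of_map`, `SC_of_Sub` and the facts on `HasT`.
-/

namespace SEY

open Finset

variable {E : Type} [Fintype E] [DecidableEq E]

/-- pull back along `π`, cut off outside `S` -/
def scLft {E' : Type} (S : Finset E) (π : E → E') : (E' → ZMod 2) →ₗ[ZMod 2] (E → ZMod 2) where
  toFun w := fun e => if e ∈ S then w (π e) else 0
  map_add' f g := by
    funext e
    by_cases h : e ∈ S <;> simp [h]
  map_smul' c f := by
    funext e
    by_cases h : e ∈ S <;> simp [h]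

omit [Fintype E] in
lemma scLft_apply {E' : Type} (S : Finset E) (π : E → E') (w : E' → ZMod 2) (e : E) :
    scLft S π w e = if e ∈ S then w (π e) else 0 := rfl

omit [Fintype E] [DecidableEq E] in
lemma sc_aux_sd {α : Type} [DecidableEq α] {S X Y : Finset α} {t : α} (hY : Y ⊆ S)
    (hd : X ∩ Y = ∅) (ht : S \ (X ∪ Y) = {t}) : S \ insert t X = Y := by
  ext i
  have h1 : i ∈ S \ (X ∪ Y) ↔ i = t := by rw [ht, Finset.mem_singleton]
  rw [Finset.mem_sdiff, Finset.mem_union] at h1
  have h2 : ¬ (i ∈ X ∧ i ∈ Y) := by rw [← Finset.mem_inter, hd]; simp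
  have h3 : i ∈ Y → i ∈ S := fun h => hY h
  rw [Finset.mem_sdiff, Finset.mem_insert]
  clear hY hd ht
  tauto

open BM in
/-- A series extension of a 3-connected matroid, abstract form. -/
theorem SC_of_map {E' : Type} [Fintype E'] [DecidableEq E'] (M : BM E) (M0 : BM E') (h0 : M0.TC)
    (π : E → E') (hm : ∀ e ∈ M.S, π e ∈ M0.S) (hs : ∀ i ∈ M0.S, ∃ e ∈ M.S, π e = i)
    (hz : ∀ z : E → ZMod 2, (∀ e, e ∉ M.S → z e = 0) →
      (z ∈ M.Z ↔ ∃ w ∈ M0.Z, ∀ e ∈ M.S, z e = w (π e))) :
    M.SC ∧ ∀ a ∈ M.S, ∀ b ∈ M.S, (M.Ser a b ↔ π a = π b) := by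
  have hlft : ∀ w ∈ M0.Z, scLft M.S π w ∈ M.Z := by
    intro w hw
    refine (hz _ (fun e he => by rw [scLft_apply, if_neg he])).2 ⟨w, hw, fun e he => ?_⟩
    rw [scLft_apply, if_pos he]
  have hser : ∀ a ∈ M.S, ∀ b ∈ M.S, (M.Ser a b ↔ π a = π b) := by
    intro a ha b hb
    constructor
    · intro hab
      by_contra hne
      obtain ⟨w, hw, h1, h2⟩ := h0.exists_cycle_ne (hm a ha) (hm b hb) hne
      have h3 := hab _ (hlft w hw)
      rw [scLft_apply, scLft_apply, if_pos ha, if_pos hb, h1, h2] at h3
      exact absurd h3 (by decide)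
    · intro hab z hzM
      obtain ⟨w, hw, h1⟩ := (hz z hzM.1).1 hzM
      rw [h1 a ha, h1 b hb, hab]
  -- dimensions
  have hdim : ∀ (X : Finset E) (I : Finset E'),
      (∀ i ∈ M0.S, i ∈ I ↔ ∀ e ∈ M.S, π e = i → e ∈ X) → M.dZ X = M0.dZ I := by
    intro X I hI
    have h1 : M.ZIn X = (M0.ZIn I).map (scLft M.S π) := by
      ext z
      rw [mem_ZIn, Submodule.mem_map]
      constructor
      · rintro ⟨hzM, hz0⟩
        obtain ⟨w, hw, h1⟩ := (hz z hzM.1).1 hzM
        refine ⟨w, (mem_ZIn _).2 ⟨hw, fun i hi => ?_⟩, ?_⟩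
        · by_cases hiS : i ∈ M0.S
          · rw [hI i hiS] at hi
            push Not at hi
            obtain ⟨e, he, h2, h3⟩ := hi
            rw [← h2, ← h1 e he, hz0 e h3]
          · exact hw.1 i hiS
        · ext e
          rw [scLft_apply]
          split_ifs with he
          · exact (h1 e he).symm
          · exact (hzM.1 e he).symm
      · rintro ⟨w, hw, rfl⟩
        rw [mem_ZIn] at hw
        refine ⟨hlft w hw.1, fun e he => ?_⟩
        rw [scLft_apply]
        split_ifs with h2
        · refine hw.2 _ (fun h3 => he ?_)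
          exact (hI _ (hm e h2)).1 h3 e h2 rfl
        · rfl
    show Module.finrank (ZMod 2) (M.ZIn X) = Module.finrank (ZMod 2) (M0.ZIn I)
    rw [h1, ← LinearMap.range_domRestrict]
    refine LinearMap.finrank_range_of_inj ?_
    rw [← LinearMap.ker_eq_bot, LinearMap.ker_eq_bot']
    rintro ⟨w, hw⟩ h2
    rw [mem_ZIn] at hw
    ext i
    show w i = 0
    by_cases hiS : i ∈ M0.S
    · obtain ⟨e, he, rfl⟩ := hs i hiS
      have h3 : scLft M.S π w e = 0 := congrFun h2 e
      rwa [scLft_apply, if_pos he] at h3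
    · exact hw.1.1 i hiS
  have hnul : M.nul = M0.nul := by
    rw [← M.dZ_S, ← M0.dZ_S]
    exact hdim _ _ (fun i hi => ⟨fun _ e he _ => he, fun _ => hi⟩)
  refine ⟨⟨?_, fun X hX h1 => ?_⟩, hser⟩
  · obtain ⟨T, hT, hcard⟩ := Finset.exists_subset_card_eq h0.card
    let e := T.equivFin.trans (finCongr hcard)
    have hch : ∀ i : Fin 4, ∃ x ∈ M.S, π x = (e.symm i : E') := fun i => hs _ (hT (e.symm i).2)
    choose s hsS hsπ using hch
    refine ⟨s, hsS, fun i j hij hs' => hij ?_⟩
    rw [hser _ (hsS i) _ (hsS j), hsπ, hsπ] at hs'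
    exact e.symm.injective (Subtype.ext hs')
  · set Xs : Finset E' := M0.S.filter (fun i => ∀ e ∈ M.S, π e = i → e ∈ X) with hXs
    set Ys : Finset E' := M0.S.filter (fun i => ∀ e ∈ M.S, π e = i → e ∈ M.S \ X) with hYs
    have hdX : M.dZ X = M0.dZ Xs := hdim _ _ (fun i hi => by simp [hXs, hi])
    have hdY : M.dZ (M.S \ X) = M0.dZ Ys := hdim _ _ (fun i hi => by
      rw [hYs, Finset.mem_filter]; simp only [hi, true_and])
    have hXsS : Xs ⊆ M0.S := Finset.filter_subset _ _
    have hYsS : Ys ⊆ M0.S := Finset.filter_subset _ _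
    have g1 := M.lam_add_dZ X
    rw [hdX, hdY, hnul] at g1
    have hdisj : Xs ∩ Ys = ∅ := by
      rw [Finset.eq_empty_iff_forall_notMem]
      intro i hi
      rw [Finset.mem_inter, hXs, hYs, Finset.mem_filter, Finset.mem_filter] at hi
      obtain ⟨e, he, h2⟩ := hs i hi.1.1
      exact (Finset.mem_sdiff.1 (hi.2.2 e he h2)).2 (hi.1.2 e he h2)
    have g2 := M0.dZ_super Xs Ys
    rw [hdisj, M0.dZ_empty] at g2
    set T : Finset E' := M0.S \ (Xs ∪ Ys) with hTdef
    have hX1 : ∀ e ∈ X, π e ∈ Xs ∪ T := by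
      intro e he
      have h2 := hm e (hX he)
      have h3 : π e ∉ Ys := by
        intro h4
        rw [hYs, Finset.mem_filter] at h4
        exact (Finset.mem_sdiff.1 (h4.2 e (hX he) rfl)).2 he
      rw [hTdef, Finset.mem_union, Finset.mem_sdiff, Finset.mem_union]
      tauto
    have hY1 : ∀ e ∈ M.S \ X, π e ∈ Ys ∪ T := by
      intro e he
      have he' := Finset.mem_sdiff.1 he
      have h2 := hm e he'.1
      have h3 : π e ∉ Xs := by
        intro h4
        rw [hXs, Finset.mem_filter] at h4
        exact he'.2 (h4.2 e he'.1 rfl)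
      rw [hTdef, Finset.mem_union, Finset.mem_sdiff, Finset.mem_union]
      tauto
    have hTm : ∀ i, i ∈ T ↔ i ∈ M0.S ∧ ¬ (i ∈ Xs ∨ i ∈ Ys) := by
      intro i; rw [hTdef, Finset.mem_sdiff, Finset.mem_union]
    clear_value Xs Ys T
    -- conclusions from small sets
    have hconX : (Xs ∪ T).card ≤ 1 → (∀ e ∈ X, ∀ f ∈ X, M.Ser e f) := by
      intro h2 e he f hf
      exact (hser e (hX he) f (hX hf)).2 (Finset.card_le_one.1 h2 _ (hX1 e he) _ (hX1 f hf))
    have hconY : (Ys ∪ T).card ≤ 1 → (∀ e ∈ M.S \ X, ∀ f ∈ M.S \ X, M.Ser e f) := by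
      intro h2 e he f hf
      exact (hser e (Finset.mem_sdiff.1 he).1 f (Finset.mem_sdiff.1 hf).1).2
        (Finset.card_le_one.1 h2 _ (hY1 e he) _ (hY1 f hf))
    by_cases hT2 : 1 < T.card
    · exfalso
      obtain ⟨x, hx, y, hy, hxy⟩ := Finset.one_lt_card.1 hT2
      have hxS := ((hTm x).1 hx).1
      have hyS := ((hTm y).1 hy).1
      have g3 := M0.dual_r_add_dZ {x, y}
      rw [h0.dual.r_pair hxS hyS hxy] at g3
      have g4 : M0.dZ (Xs ∪ Ys) ≤ M0.dZ (M0.S \ {x, y}) := by
        refine M0.dZ_mono (fun i hi => ?_)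
        rw [Finset.mem_sdiff, Finset.mem_insert, Finset.mem_singleton]
        refine ⟨?_, ?_⟩
        · rcases Finset.mem_union.1 hi with h2 | h2
          · exact hXsS h2
          · exact hYsS h2
        · rintro (rfl | rfl)
          · exact ((hTm _).1 hx).2 (Finset.mem_union.1 hi)
          · exact ((hTm _).1 hy).2 (Finset.mem_union.1 hi)
      omega
    · by_cases hT0 : T = ∅
      · have hYX : M0.S \ Xs = Ys := by
          ext i
          have h2 : i ∉ T := by rw [hT0]; simp
          have h3 : ¬ (i ∈ Xs ∧ i ∈ Ys) := by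
            rw [← Finset.mem_inter, hdisj]; simp
          have h4 : i ∈ Ys → i ∈ M0.S := fun h => hYsS h
          rw [hTm] at h2
          rw [Finset.mem_sdiff]
          tauto
        have g3 := M0.lam_add_dZ Xs
        rw [hYX] at g3
        rw [hT0, Finset.union_empty] at hconX hconY
        rcases h0.of_lam_one hXsS (by omega) with h2 | h2
        · exact Or.inl (hconX h2)
        · rw [hYX] at h2
          exact Or.inr (hconY h2)
      · obtain ⟨t, ht⟩ := Finset.nonempty_iff_ne_empty.2 hT0
        have hT1 : T = {t} := by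
          rw [Finset.eq_singleton_iff_unique_mem]
          exact ⟨ht, fun x hx => Finset.card_le_one.1 (by omega) x hx t ht⟩
        have ht' := (hTm t).1 ht
        rw [not_or] at ht'
        by_cases hXe : Xs = ∅
        · left
          refine hconX ?_
          rw [hXe, hT1]; simp
        by_cases hYe : Ys = ∅
        · right
          refine hconY ?_
          rw [hYe, hT1]; simp
        exfalso
        have hpX := Finset.card_pos.2 (Finset.nonempty_iff_ne_empty.2 hXe)
        have hpY := Finset.card_pos.2 (Finset.nonempty_iff_ne_empty.2 hYe)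
        have hT' : M0.S \ (Xs ∪ Ys) = {t} := hTdef ▸ hT1
        have hT'' : M0.S \ (Ys ∪ Xs) = {t} := by rw [Finset.union_comm]; exact hT'
        have hA : M0.S \ insert t Xs = Ys := sc_aux_sd hYsS hdisj hT'
        have hB : M0.S \ insert t Ys = Xs :=
          sc_aux_sd hXsS (by rw [Finset.inter_comm]; exact hdisj) hT''
        have hAS : insert t Xs ⊆ M0.S := Finset.insert_subset ht'.1 hXsS
        have hBS : insert t Ys ⊆ M0.S := Finset.insert_subset ht'.1 hYsS
        have hcA : (insert t Xs).card = Xs.card + 1 := Finset.card_insert_of_notMem ht'.2.1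
        have hcB : (insert t Ys).card = Ys.card + 1 := Finset.card_insert_of_notMem ht'.2.2
        have hcS := Finset.card_sdiff_add_card_eq_card hAS
        rw [hA] at hcS
        have hc4 := h0.card
        have k1 := M0.lam_add_dZ (insert t Xs)
        have k2 := M0.lam_add_dZ (insert t Ys)
        have k3 : M0.dZ Xs ≤ M0.dZ (insert t Xs) := M0.dZ_mono (Finset.subset_insert _ _)
        have k4 : M0.dZ Ys ≤ M0.dZ (insert t Ys) := M0.dZ_mono (Finset.subset_insert _ _)
        rw [hA] at k1
        rw [hB] at k2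
        rcases (show 2 ≤ Ys.card ∨ 2 ≤ Xs.card by omega) with h2 | h2
        · have h3 := h0.two_le_lam hAS (by omega) (by rw [hA]; exact h2)
          omega
        · have h3 := h0.two_le_lam hBS (by omega) (by rw [hB]; exact h2)
          omega

lemma sc_mem_Z_ofRows {r k : ℕ} {rows : Fin r → Fin k → ZMod 2} {w : Fin k → ZMod 2} :
    w ∈ (ofRows rows).Z ↔ ∀ i, ∑ j, rows i j * w j = 0 := by
  constructor
  · intro h i
    exact h.2 (rows i) (Submodule.subset_span ⟨i, rfl⟩)
  · intro h
    refine ⟨fun e he => absurd (Finset.mem_univ e) he, fun f hf => ?_⟩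
    have hf' : f ∈ Submodule.span (ZMod 2) (Set.range rows) := hf
    induction hf' using Submodule.span_induction with
    | mem x hx =>
      obtain ⟨i, rfl⟩ := hx
      exact h i
    | zero => simp
    | add x y _ _ hx hy => rw [dot_add_left, hx, hy, add_zero] <;> assumption
    | smul c x _ hx => rw [dot_smul_left, hx, mul_zero]; assumption

open BM in
/-- A subdivision of a 3-connected matroid is `SC`. -/
theorem SC_of_Sub {r k : ℕ} (rows : Fin r → Fin k → ZMod 2) (h0 : (ofRows rows).TC) (M : BM E)
    (A : Finset E) (π : E → Fin k) (h : Sub rows M A π) :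
    (M.res A).SC ∧ ∀ a ∈ A, ∀ b ∈ A, ((M.res A).Ser a b ↔ π a = π b) := by
  obtain ⟨hA, hπ, hz⟩ := h
  have hS : (M.res A).S = A := Finset.inter_eq_right.2 hA
  have key := SC_of_map (M.res A) (ofRows rows) h0 π (fun e _ => Finset.mem_univ _)
    (fun i _ => by rw [hS]; exact hπ i) (fun z hz0 => by
      rw [hS] at hz0 ⊢
      rw [mem_Z_res, hz z hz0]
      constructor
      · rintro ⟨⟨w, hw, h1⟩, -⟩
        exact ⟨w, sc_mem_Z_ofRows.2 hw, h1⟩
      · rintro ⟨w, hw, h1⟩
        exact ⟨⟨w, sc_mem_Z_ofRows.1 hw, h1⟩, hz0⟩)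
  rw [hS] at key
  exact key

/-! ### HasT -/

open BM in
theorem HasT_of_del {r k : ℕ} {rows : Fin r → Fin k → ZMod 2} {M : BM E} {D : Finset E}
    (h : HasT rows (M.del D)) : HasT rows M := by
  obtain ⟨A, π, hA, hπ, hz⟩ := h
  have hAS : ∀ e ∈ A, e ∈ M.S ∧ e ∉ D := fun e he => Finset.mem_sdiff.1 (hA he)
  refine ⟨A, π, fun e he => (hAS e he).1, hπ, fun z hz0 => ?_⟩
  rw [← hz z hz0, mem_Z_del]
  exact ⟨fun h1 => ⟨h1, fun e he => hz0 e (fun h2 => (hAS e h2).2 he)⟩, fun h1 => h1.1⟩

open BM in
theorem HasT_con {r k : ℕ} {rows : Fin r → Fin k → ZMod 2} (h0 : (ofRows rows).TC) {M : BM E}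
    {a b : E} (ha : a ∈ M.S) (hb : b ∈ M.S) (hab : a ≠ b) (hs : M.Ser a b)
    (h : HasT rows M) : HasT rows (M.con {a}) := by
  obtain ⟨A, π, hA, hπ, hz⟩ := h
  have hser := SC_of_Sub rows h0 M A π ⟨hA, hπ, hz⟩
  have hcol : ∀ e ∈ A, ∃ z ∈ M.Z, (∀ e, e ∉ A → z e = 0) ∧ z e = 1 := by
    intro e he
    obtain ⟨z, hz1, h1⟩ := hser.1.not_coloop (e := e)
      (by rw [res_S, Finset.inter_eq_right.2 hA]; exact he)
    rw [mem_Z_res] at hz1
    exact ⟨z, hz1.1, hz1.2, h1⟩
  have hsup : ∀ z : E → ZMod 2, (∀ e, e ∉ A.erase a → z e = 0) → z ∈ (M.con {a}).Z →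
      ∃ w ∈ M.Z, w a = z b ∧ ∀ e, e ≠ a → w e = z e := by
    intro z _ hz1
    rw [mem_Z_con] at hz1
    obtain ⟨w, hw, rfl⟩ := hz1
    have h1 : ∀ e, e ≠ a → w e = mask (M.S \ {a}) w e := by
      intro e he
      rw [mask_apply]
      split_ifs with h1
      · rfl
      · exact hw.1 e (fun h2 => h1 (by simp [h2, he]))
    exact ⟨w, hw, by rw [hs w hw]; exact h1 b hab.symm, h1⟩
  have hdown : ∀ w ∈ M.Z, ∀ z : E → ZMod 2, z a = 0 → (∀ e, e ≠ a → w e = z e) →
      z ∈ (M.con {a}).Z := by
    intro w hw z hza hwz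
    rw [mem_Z_con]
    refine ⟨w, hw, ?_⟩
    ext e
    rw [mask_apply]
    by_cases hea : e = a
    · rw [hea, if_neg (by simp), hza]
    · by_cases heS : e ∈ M.S
      · rw [if_pos (by simp [heS, hea]), hwz e hea]
      · rw [if_neg (by simp [heS]), ← hwz e hea, hw.1 e heS]
  by_cases haA : a ∈ A
  · have hbA : b ∈ A := by
      by_contra hbA
      obtain ⟨z, hz1, hz2, hz3⟩ := hcol a haA
      have := hs z hz1
      rw [hz3, hz2 b hbA] at this
      exact absurd this (by decide)
    have hπab : π a = π b := by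
      refine (hser.2 a haA b hbA).1 (fun z hz1 => ?_)
      rw [mem_Z_res] at hz1
      exact hs z hz1.1
    refine ⟨A.erase a, π, fun e he => ?_, fun i => ?_, fun z hz0 => ?_⟩
    · rw [Finset.mem_erase] at he
      simp [hA he.2, he.1]
    · obtain ⟨e, he, h1⟩ := hπ i
      by_cases hea : e = a
      · exact ⟨b, Finset.mem_erase.2 ⟨hab.symm, hbA⟩, by rw [← hπab, ← hea, h1]⟩
      · exact ⟨e, Finset.mem_erase.2 ⟨hea, he⟩, h1⟩
    · have hza : z a = 0 := hz0 a (by simp)
      constructor
      · intro h1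
        obtain ⟨w, hw, hwa, hwz⟩ := hsup z hz0 h1
        have hwA : ∀ e, e ∉ A → w e = 0 := by
          intro e he
          have hea : e ≠ a := fun h2 => he (h2 ▸ haA)
          rw [hwz e hea]
          exact hz0 e (fun h2 => he (Finset.mem_erase.1 h2).2)
        obtain ⟨v, hv, hv1⟩ := (hz w hwA).1 hw
        refine ⟨v, hv, fun e he => ?_⟩
        rw [Finset.mem_erase] at he
        rw [← hwz e he.1]
        exact hv1 e he.2
      · rintro ⟨v, hv, hv1⟩
        have hw : (fun e => if e ∈ A then v (π e) else 0) ∈ M.Z := by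
          refine (hz _ (fun e he => by simp [he])).2 ⟨v, hv, fun e he => by simp [he]⟩
        refine hdown _ hw z hza (fun e he => ?_)
        by_cases heA : e ∈ A
        · rw [hv1 e (Finset.mem_erase.2 ⟨he, heA⟩)]
          simp [heA]
        · rw [hz0 e (fun h2 => heA (Finset.mem_erase.1 h2).2)]
          simp [heA]
  · have hbA : b ∉ A := by
      intro hbA
      obtain ⟨z, hz1, hz2, hz3⟩ := hcol b hbA
      have := hs z hz1
      rw [hz3, hz2 a haA] at this
      exact absurd this (by decide)
    refine ⟨A, π, fun e he => ?_, hπ, fun z hz0 => ?_⟩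
    · have hea : e ≠ a := fun h2 => haA (h2 ▸ he)
      simp [hA he, hea]
    · rw [← hz z hz0]
      constructor
      · intro h1
        obtain ⟨w, hw, hwa, hwz⟩ := hsup z
          (fun e he => hz0 e (fun h2 => he (by
            rw [Finset.mem_erase]; exact ⟨fun h3 => haA (h3 ▸ h2), h2⟩))) h1
        have : w = z := by
          ext e
          by_cases hea : e = a
          · rw [hea, hwa, hz0 a haA, hz0 b hbA]
          · exact hwz e hea
        rw [← this]; exact hw
      · intro h1
        exact hdown z h1 z (hz0 a haA) (fun e _ => rfl)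

open BM in
theorem HasT_of_con {r k : ℕ} {rows : Fin r → Fin k → ZMod 2} (h0 : (ofRows rows).TC) {M : BM E}
    {a b : E} (ha : a ∈ M.S) (hb : b ∈ M.S) (hab : a ≠ b) (hs : M.Ser a b)
    (hcl : ∃ z ∈ M.Z, z a = 1) (h : HasT rows (M.con {a})) : HasT rows M := by
  obtain ⟨A, π, hA, hπ, hz⟩ := h
  have hAS : ∀ e ∈ A, e ∈ M.S ∧ e ≠ a := by
    intro e he
    have := hA he
    simpa using this
  have haA : a ∉ A := fun h1 => (hAS a h1).2 rfl
  have hsup : ∀ z : E → ZMod 2, z ∈ (M.con {a}).Z →
      ∃ w ∈ M.Z, w a = z b ∧ ∀ e, e ≠ a → w e = z e := by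
    intro z hz1
    rw [mem_Z_con] at hz1
    obtain ⟨w, hw, rfl⟩ := hz1
    have h1 : ∀ e, e ≠ a → w e = mask (M.S \ {a}) w e := by
      intro e he
      rw [mask_apply]
      split_ifs with h1
      · rfl
      · exact hw.1 e (fun h2 => h1 (by simp [h2, he]))
    exact ⟨w, hw, by rw [hs w hw]; exact h1 b hab.symm, h1⟩
  have hdown : ∀ w ∈ M.Z, ∀ z : E → ZMod 2, z a = 0 → (∀ e, e ≠ a → w e = z e) →
      z ∈ (M.con {a}).Z := by
    intro w hw z hza hwz
    rw [mem_Z_con]
    refine ⟨w, hw, ?_⟩
    ext e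
    rw [mask_apply]
    by_cases hea : e = a
    · rw [hea, if_neg (by simp), hza]
    · by_cases heS : e ∈ M.S
      · rw [if_pos (by simp [heS, hea]), hwz e hea]
      · rw [if_neg (by simp [heS]), ← hwz e hea, hw.1 e heS]
  by_cases hbA : b ∈ A
  · refine ⟨insert a A, fun e => if e = a then π b else π e, fun e he => ?_, fun i => ?_,
      fun z hz0 => ?_⟩
    · rcases Finset.mem_insert.1 he with rfl | he
      · exact ha
      · exact (hAS e he).1
    · obtain ⟨e, he, h1⟩ := hπ i
      exact ⟨e, Finset.mem_insert_of_mem he, by simp only [if_neg (hAS e he).2]; exact h1⟩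
    · -- the truncated vector
      have hz'0 : ∀ e, e ∉ A → (fun e => if e = a then 0 else z e) e = (0 : ZMod 2) := by
        intro e he
        by_cases hea : e = a
        · simp [hea]
        · simp only [if_neg hea]
          exact hz0 e (by simp [hea, he])
      constructor
      · intro h1
        have h2 : (fun e => if e = a then 0 else z e) ∈ (M.con {a}).Z :=
          hdown z h1 _ (by simp) (fun e he => by simp [he])
        obtain ⟨w, hw, hw1⟩ := (hz _ hz'0).1 h2
        refine ⟨w, hw, fun e he => ?_⟩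
        by_cases hea : e = a
        · simp only [if_pos hea]
          rw [hea, hs z h1, ← hw1 b hbA]
          simp [hab.symm]
        · simp only [if_neg hea]
          have heA : e ∈ A := by
            rcases Finset.mem_insert.1 he with h3 | h3
            · exact absurd h3 hea
            · exact h3
          have := hw1 e heA
          simpa [hea] using this
      · rintro ⟨w, hw, hw1⟩
        have h2 : (fun e => if e = a then 0 else z e) ∈ (M.con {a}).Z := by
          refine (hz _ hz'0).2 ⟨w, hw, fun e he => ?_⟩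
          have hea := (hAS e he).2
          have := hw1 e (Finset.mem_insert_of_mem he)
          simp only [if_neg hea] at this ⊢
          exact this
        obtain ⟨v, hv, hva, hvz⟩ := hsup _ h2
        have : v = z := by
          ext e
          by_cases hea : e = a
          · rw [hea, hva]
            simp only [if_neg hab.symm]
            have g1 := hw1 b (Finset.mem_insert_of_mem hbA)
            have g2 := hw1 a (Finset.mem_insert_self _ _)
            simp only [if_neg hab.symm, if_true] at g1 g2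
            rw [g1, g2]
          · rw [hvz e hea]
            simp [hea]
        rw [← this]; exact hv
  · refine ⟨A, π, fun e he => (hAS e he).1, hπ, fun z hz0 => ?_⟩
    rw [← hz z hz0]
    constructor
    · intro h1
      exact hdown z h1 z (hz0 a haA) (fun e _ => rfl)
    · intro h1
      obtain ⟨w, hw, hwa, hwz⟩ := hsup z h1
      have : w = z := by
        ext e
        by_cases hea : e = a
        · rw [hea, hwa, hz0 a haA, hz0 b hbA]
        · exact hwz e hea
      rw [← this]; exact hw

open BM in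
theorem HasT_switch {r k : ℕ} {rows : Fin r → Fin k → ZMod 2} (h0 : (ofRows rows).TC) {M : BM E}
    (A : Finset E) (hA : A ⊆ M.S) (x : E) (hx : x ∈ A) (P : Finset E) (hP : P ⊆ M.S)
    (hd : Disjoint P A) (hne : P.Nonempty) (hz : ind (insert x P) ∈ M.Z)
    (hear : ∀ z ∈ M.Z, (∀ e, e ∉ A ∪ P → z e = 0) → (∀ p ∈ P, z p = 0) ∨ (∀ p ∈ P, z p = 1))
    (h : HasT rows (M.res A)) : HasT rows (M.res (A.erase x ∪ P)) := by
  obtain ⟨B, π, hB, hπ, hzB⟩ := h
  have hBA : B ⊆ A := fun e he => (Finset.mem_inter.1 (hB he)).2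
  have hPA : ∀ p ∈ P, p ∉ A := fun p hp hpA => (Finset.disjoint_left.1 hd) hp hpA
  have hzB' : ∀ z : E → ZMod 2, (∀ e, e ∉ B → z e = 0) → (z ∈ M.Z ↔
      ∃ w : Fin k → ZMod 2, (∀ i, ∑ j, rows i j * w j = 0) ∧ ∀ e ∈ B, z e = w (π e)) := by
    intro z hz0
    rw [← hzB z hz0, mem_Z_res]
    exact ⟨fun h1 => ⟨h1, fun e he => hz0 e (fun h2 => he (hBA h2))⟩, fun h1 => h1.1⟩
  by_cases hxB : x ∈ B
  · have hindx : (ind (insert x P) : E → ZMod 2) x = 1 := ind_of_mem (Finset.mem_insert_self _ _)
    have hindp : ∀ p ∈ P, (ind (insert x P) : E → ZMod 2) p = 1 :=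
      fun p hp => ind_of_mem (Finset.mem_insert_of_mem hp)
    have hind0 : ∀ e, e ≠ x → e ∉ P → (ind (insert x P) : E → ZMod 2) e = 0 := by
      intro e h1 h2
      exact ind_of_notMem (by simp [h1, h2])
    obtain ⟨q, hq⟩ := hne
    refine ⟨B.erase x ∪ P, fun e => if e ∈ P then π x else π e, fun e he => ?_, fun i => ?_,
      fun z hz0 => ?_⟩
    · rw [res_S, Finset.mem_inter]
      rcases Finset.mem_union.1 he with h1 | h1
      · rw [Finset.mem_erase] at h1
        exact ⟨hA (hBA h1.2), Finset.mem_union_left _ (Finset.mem_erase.2 ⟨h1.1, hBA h1.2⟩)⟩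
      · exact ⟨hP h1, Finset.mem_union_right _ h1⟩
    · obtain ⟨e, he, h1⟩ := hπ i
      by_cases hex : e = x
      · exact ⟨q, Finset.mem_union_right _ hq, by simp only [if_pos hq]; rw [← hex, h1]⟩
      · refine ⟨e, Finset.mem_union_left _ (Finset.mem_erase.2 ⟨hex, he⟩), ?_⟩
        simp only [if_neg (fun h2 => hPA e h2 (hBA he))]
        exact h1
    · -- `z` lives on `B - x ∪ P`
      have hzx : z x = 0 := hz0 x (by
        simp only [Finset.mem_union, Finset.mem_erase]
        rintro (h1 | h1)
        · exact h1.1 rfl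
        · exact hPA x h1 (hBA hxB))
      have hzr : z ∈ (M.res (A.erase x ∪ P)).Z ↔ z ∈ M.Z := by
        rw [mem_Z_res]
        refine ⟨fun h1 => h1.1, fun h1 => ⟨h1, fun e he => hz0 e (fun h2 => he ?_)⟩⟩
        rcases Finset.mem_union.1 h2 with h3 | h3
        · rw [Finset.mem_erase] at h3
          exact Finset.mem_union_left _ (Finset.mem_erase.2 ⟨h3.1, hBA h3.2⟩)
        · exact Finset.mem_union_right _ h3
      rw [hzr]
      -- outside `P` and off `B`, `z` vanishes
      have hzo : ∀ e, e ∉ B → e ∉ P → z e = 0 := by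
        intro e h1 h2
        refine hz0 e ?_
        simp only [Finset.mem_union, Finset.mem_erase]
        tauto
      have hcase0 : (∀ p ∈ P, z p = 0) → (z ∈ M.Z ↔ ∃ w : Fin k → ZMod 2,
          (∀ i, ∑ j, rows i j * w j = 0) ∧
            ∀ e ∈ B.erase x ∪ P, z e = w (if e ∈ P then π x else π e)) := by
        intro hp0
        rw [hzB' z (fun e he => by
          by_cases heP : e ∈ P
          · exact hp0 e heP
          · exact hzo e he heP)]
        refine exists_congr (fun w => and_congr_right (fun _ => ?_))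
        constructor
        · intro h1 e he
          by_cases heP : e ∈ P
          · rw [if_pos heP, hp0 e heP, ← h1 x hxB, hzx]
          · rw [if_neg heP]
            rcases Finset.mem_union.1 he with h2 | h2
            · exact h1 e (Finset.mem_erase.1 h2).2
            · exact absurd h2 heP
        · intro h1 e he
          by_cases hex : e = x
          · have h2 := h1 q (Finset.mem_union_right _ hq)
            rw [if_pos hq, hp0 q hq] at h2
            rw [hex, hzx, h2]
          · have h2 := h1 e (Finset.mem_union_left _ (Finset.mem_erase.2 ⟨hex, he⟩))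
            rwa [if_neg (fun h3 => hPA e h3 (hBA he))] at h2
      have hcase1 : (∀ p ∈ P, z p = 1) → (z ∈ M.Z ↔ ∃ w : Fin k → ZMod 2,
          (∀ i, ∑ j, rows i j * w j = 0) ∧
            ∀ e ∈ B.erase x ∪ P, z e = w (if e ∈ P then π x else π e)) := by
        intro hp1
        have hadd : z ∈ M.Z ↔ z + ind (insert x P) ∈ M.Z := by
          constructor
          · intro h1
            exact M.Z.add_mem h1 hz
          · intro h1
            have h2 := M.Z.add_mem h1 hz
            have h3 : z + ind (insert x P) + ind (insert x P) = z := by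
              ext e
              simp only [Pi.add_apply, add_assoc, z_add_self, add_zero]
            rwa [h3] at h2
        rw [hadd, hzB' _ (fun e he => by
          by_cases heP : e ∈ P
          · rw [Pi.add_apply, hp1 e heP, hindp e heP]; decide
          · have hex : e ≠ x := fun h2 => he (h2 ▸ hxB)
            rw [Pi.add_apply, hzo e he heP, hind0 e hex heP, add_zero])]
        refine exists_congr (fun w => and_congr_right (fun _ => ?_))
        constructor
        · intro h1 e he
          by_cases heP : e ∈ P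
          · have h2 := h1 x hxB
            rw [Pi.add_apply, hzx, hindx, zero_add] at h2
            rw [if_pos heP, hp1 e heP, h2]
          · rw [if_neg heP]
            rcases Finset.mem_union.1 he with h2 | h2
            · rw [Finset.mem_erase] at h2
              have h3 := h1 e h2.2
              rwa [Pi.add_apply, hind0 e h2.1 heP, add_zero] at h3
            · exact absurd h2 heP
        · intro h1 e he
          have heP : e ∉ P := fun h3 => hPA e h3 (hBA he)
          by_cases hex : e = x
          · have h2 := h1 q (Finset.mem_union_right _ hq)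
            rw [if_pos hq, hp1 q hq] at h2
            rw [Pi.add_apply, hex, hzx, hindx, zero_add, h2]
          · have h2 := h1 e (Finset.mem_union_left _ (Finset.mem_erase.2 ⟨hex, he⟩))
            rw [if_neg heP] at h2
            rw [Pi.add_apply, hind0 e hex heP, add_zero, h2]
      constructor
      · intro h1
        rcases hear z h1 (fun e he => hz0 e (fun h2 => he (by
          rcases Finset.mem_union.1 h2 with h3 | h3
          · exact Finset.mem_union_left _ (hBA (Finset.mem_erase.1 h3).2)
          · exact Finset.mem_union_right _ h3))) with h2 | h2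
        · exact (hcase0 h2).1 h1
        · exact (hcase1 h2).1 h1
      · rintro ⟨w, hw, h1⟩
        have h2 : ∀ p ∈ P, z p = w (π x) := by
          intro p hp
          have := h1 p (Finset.mem_union_right _ hp)
          simp only [if_pos hp] at this
          exact this
        rcases zcases (w (π x)) with h3 | h3
        · exact (hcase0 (fun p hp => by rw [h2 p hp, h3])).2 ⟨w, hw, h1⟩
        · exact (hcase1 (fun p hp => by rw [h2 p hp, h3])).2 ⟨w, hw, h1⟩
  · refine ⟨B, π, fun e he => ?_, hπ, fun z hz0 => ?_⟩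
    · rw [res_S, Finset.mem_inter]
      refine ⟨hA (hBA he), Finset.mem_union_left _ (Finset.mem_erase.2 ⟨?_, hBA he⟩)⟩
      rintro rfl
      exact hxB he
    · rw [← hzB' z hz0, mem_Z_res]
      refine ⟨fun h1 => h1.1, fun h1 => ⟨h1, fun e he => hz0 e (fun h2 => he ?_)⟩⟩
      refine Finset.mem_union_left _ (Finset.mem_erase.2 ⟨?_, hBA h2⟩)
      rintro rfl
      exact hxB h2

end SEY
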