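import Pool.Agent.Helper25.SEY.Defs

/-!
Block SC: the definitions `ofRows` and `BM.Two`.
-/

namespace SEY

open Finset

variable {E : Type} [Fintype E] [DecidableEq E]

/-- The matroid on `Fin k` with row space spanned by `rows`. -/
def ofRows {r k : ℕ} (rows : Fin r → Fin k → ZMod 2) : BM (Fin k) where
  S := Finset.univ
  R := Submodule.span (ZMod 2) (Set.range rows)
  supp := fun _ _ e he => absurd (Finset.mem_univ e) he

/-- All series classes have at most two elements. -/
def BM.Two (M : BM E) : Prop :=
  ∀ a ∈ M.S, ∀ b ∈ M.S, ∀ c ∈ M.S, M.Ser a b → M.Ser a c → a = b ∨ a = c ∨ b = c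

end SEY
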